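import Pool.Agent.Helper56.RZ.GoalsB

/-!
# Project RZ: packet MS
-/

set_option autoImplicit false

open Set Filter Topology MeasureTheory

open scoped ContDiff

namespace Pool.Agent.Helper35.RZ

open Pool.Agent.Helper56.RZ

lemma meas_pre {K : ℕ} {M : Set (E K)} (hM : MeasurableSet M) {f : E K → E K}
    (hf : ContinuousOn f M) {A : Set (E K)} (hA : MeasurableSet A) :
    MeasurableSet (f ⁻¹' A ∩ M) := by
  have h1 : MeasurableSet ((M.restrict f) ⁻¹' A) :=
    (continuousOn_iff_continuous_restrict.1 hf).measurable hA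
  have h2 := hM.subtype_image h1
  have h3 : (fun x : M => (x : E K)) '' ((M.restrict f) ⁻¹' A) = f ⁻¹' A ∩ M := by
    ext x
    constructor
    · rintro ⟨⟨y, hy⟩, h, rfl⟩
      exact ⟨h, hy⟩
    · rintro ⟨h, hx⟩
      exact ⟨⟨x, hx⟩, h, rfl⟩
  rw [← h3]
  exact h2

theorem ms : StmtMS := by
  intro N K M m hV
  have hM : MeasurableSet M := hV.compact.isClosed.measurableSet
  have hnull := hV.null
  have hinter : ∀ A : Set (E K), m (A ∩ M) = m A := by
    intro A
    refine measure_congr ?_
    have h1 : ∀ᵐ x ∂m, x ∈ M := by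
      rw [ae_iff]
      exact hnull
    filter_upwards [h1] with x hx
    exact propext ⟨fun h => h.1, fun h => ⟨h, hx⟩⟩
  have hemb := MeasurableEmbedding.subtype_coe hM
  have hres : m.restrict M = m := by
    refine Measure.restrict_eq_self_of_ae_mem ?_
    rw [ae_iff]
    exact hnull
  refine ⟨?_, ?_, ?_, ?_, ?_⟩
  · intro f f' hff' hf
    refine ⟨?_, ?_⟩
    · intro A hA
      have hC := meas_pre hM hff'.smooth'.continuousOn hA
      have h1 := hf _ hC
      have h2 : f ⁻¹' (f' ⁻¹' A ∩ M) ∩ M = A ∩ M := by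
        ext x
        constructor
        · rintro ⟨⟨h3, h4⟩, h5⟩
          refine ⟨?_, h5⟩
          have h6 : f' (f x) ∈ A := h3
          rwa [hff'.left x h5] at h6
        · rintro ⟨h3, h5⟩
          refine ⟨⟨?_, hff'.maps h5⟩, h5⟩
          change f' (f x) ∈ A
          rwa [hff'.left x h5]
      rw [← h1, h2, hinter]
    · intro g g' hgg' hg A hA
      have hC := meas_pre hM hff'.smooth.continuousOn hA
      have h1 := hg _ hC
      have h2 : g ⁻¹' (f ⁻¹' A ∩ M) ∩ M = (f ∘ g) ⁻¹' A ∩ M := by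
        ext x
        constructor
        · rintro ⟨⟨h3, h4⟩, h5⟩
          exact ⟨h3, h5⟩
        · rintro ⟨h3, h5⟩
          exact ⟨⟨h3, hgg'.maps h5⟩, h5⟩
      rw [← h2, h1]
      exact hf A hA
  · refine ⟨?_⟩
    rw [hemb.comap_apply]
    exact lt_of_le_of_lt (measure_mono (subset_univ _)) (lt_top_iff_ne_top.2 hV.finite)
  · intro f F hf hF
    refine ⟨F.continuous.measurable, ?_⟩
    ext s hs
    rw [Measure.map_apply F.continuous.measurable hs, hemb.comap_apply, hemb.comap_apply]
    have h1 := hf _ (hM.subtype_image hs)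
    have h2 : (fun x : M => (x : E K)) '' (F ⁻¹' s) = f ⁻¹' ((fun x : M => (x : E K)) '' s) ∩ M := by
      ext x
      constructor
      · rintro ⟨y, hy, rfl⟩
        refine ⟨?_, y.2⟩
        exact ⟨F y, hy, hF y⟩
      · rintro ⟨⟨z, hz, hzx⟩, hx⟩
        refine ⟨⟨x, hx⟩, ?_, rfl⟩
        have h3 : F ⟨x, hx⟩ = z := by
          apply Subtype.ext
          rw [hF]
          exact hzx.symm
        change F ⟨x, hx⟩ ∈ s
        rw [h3]
        exact hz
    change m ((fun x : M => (x : E K)) '' (F ⁻¹' s)) = m ((fun x : M => (x : E K)) '' s)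
    rw [h2, h1]
  · intro F
    rw [integral_subtype_comap hM, hres]
  · intro p hp
    rw [← ae_restrict_iff_subtype hM, hres]
    exact hp

end Pool.Agent.Helper35.RZ
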